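import Pool.Agent.D0H73.OP.Stm

/-!
# Project OP (helper73), module DAT: fibre masses.
-/

set_option autoImplicit false

open Finset
open scoped BigOperators

namespace Pool.Agent.D0H45.OP

open Pool.Agent.D0H73.OP
open Pool.Agent.V1192.UOD (V)

noncomputable section

variable {p : ℕ} [Fact p.Prime] {N : ℕ → ℕ} {n : ℕ}

open Classical in
/-- The mass of `f` on the fibre of `v`. -/
def fm (f : H p N n → ℂ) (i : Fin n) (v : V p (N i)) : ℝ :=
  ∑ g ∈ univ.filter (fun g : H p N n => g i = v), ‖f g‖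

theorem fm_nonneg (f : H p N n → ℂ) (i : Fin n) (v : V p (N i)) : 0 ≤ fm f i v :=
  sum_nonneg fun _ _ => norm_nonneg _

theorem sum_fm (f : H p N n → ℂ) (i : Fin n) : ∑ v, fm f i v = ∑ g, ‖f g‖ := by
  classical
  unfold fm
  convert sum_fiberwise (univ : Finset (H p N n)) (fun g : H p N n => g i) (fun g => ‖f g‖)

theorem sum_fm_neg (f : H p N n → ℂ) (i : Fin n) : ∑ v, fm f i (-v) = ∑ g, ‖f g‖ := by
  rw [← sum_fm f i]
  exact Equiv.sum_comp (Equiv.neg (V p (N i))) (fm f i)

/-- The mass distribution of a block. -/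
def mm (x y a : H p N n → ℂ) (i : Fin n) (v : V p (N i)) : ℝ :=
  (fm x i v + fm x i (-v)) + (fm y i v + fm y i (-v)) + (fm a i v + fm a i (-v))

theorem mm_nonneg (x y a : H p N n → ℂ) (i : Fin n) (v : V p (N i)) : 0 ≤ mm x y a i v := by
  have h := fun f => fm_nonneg (p := p) (N := N) (n := n) f i
  have h1 := h x v
  have h2 := h x (-v)
  have h3 := h y v
  have h4 := h y (-v)
  have h5 := h a v
  have h6 := h a (-v)
  unfold mm
  linarith

theorem sum_mm (x y a : H p N n → ℂ) (i : Fin n) :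
    ∑ v, mm x y a i v = 2 * (∑ g, ‖x g‖ + ∑ g, ‖y g‖ + ∑ g, ‖a g‖) := by
  unfold mm
  simp only [sum_add_distrib, sum_fm, sum_fm_neg]
  ring

theorem t_DAT : S_PKG → S_AAF → S_NUM → S_DAT := by
  intro hP hA hN p _
  choose N hN0 hNp using fun i : ℕ => hP p 16 (tau p i) (by norm_num) ((hN p).2.1 i).1
  refine ⟨N, hN0, fun n x y hx hy => ?_⟩
  have ha := (hA p N n hN0).2.1
  have htot : ∀ i : Fin n, ∑ v, mm x y aa i v ≤ 16 := by
    intro i
    rw [sum_mm]
    linarith
  choose d hd using fun i : Fin n => hNp i (mm x y aa i) (mm_nonneg x y aa i) (htot i)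
  refine ⟨d, fun i => mm x y aa i, ⟨hd, ?_, htot, ?_, ?_, ?_⟩⟩
  · intro i v
    unfold mm
    rw [neg_neg]
    ring
  · intro i v
    have h1 := fm_nonneg x i (-v)
    have h2 := fm_nonneg y i v
    have h3 := fm_nonneg y i (-v)
    have h4 := fm_nonneg (aa : H p N n → ℂ) i v
    have h5 := fm_nonneg (aa : H p N n → ℂ) i (-v)
    have h6 : fm x i v ≤ mm x y aa i v := by
      unfold mm
      linarith
    exact h6
  · intro i v
    have h1 := fm_nonneg x i (-v)
    have h2 := fm_nonneg x i v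
    have h3 := fm_nonneg y i (-v)
    have h4 := fm_nonneg (aa : H p N n → ℂ) i v
    have h5 := fm_nonneg (aa : H p N n → ℂ) i (-v)
    have h6 : fm y i v ≤ mm x y aa i v := by
      unfold mm
      linarith
    exact h6
  · intro i v
    have h1 := fm_nonneg x i (-v)
    have h2 := fm_nonneg x i v
    have h3 := fm_nonneg y i (-v)
    have h4 := fm_nonneg y i v
    have h5 := fm_nonneg (aa : H p N n → ℂ) i (-v)
    have h6 : fm (aa : H p N n → ℂ) i v ≤ mm x y aa i v := by
      unfold mm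
      linarith
    exact h6

end

end Pool.Agent.D0H45.OP
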