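import Pool.Agent.D0H45.OP.Rz

/-!
# Project OP (helper73), module PKG.
-/

set_option autoImplicit false

open Finset
open scoped BigOperators

namespace Pool.Agent.D0H45.OP

open Pool.Agent.D0H73.OP Pool.Agent.V1192
open Pool.Agent.V1192.UOD (V)

noncomputable section

theorem unit_dst {p : ℕ} [Fact p.Prime] {N : ℕ} {J : Finset (Fin N)} {S : Finset (V p N)} {M : ℕ}
    (hM : 1 ≤ M)
    (hsp : ∀ l ∈ Submodule.span (ZMod p) (S : Set (V p N)), UOD.wt J l ≤ M → l = 0)
    {j : Fin N} (hj : j ∉ J) {a : ZMod p} (ha : a ≠ 0) :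
    UOD.dst J S (Pi.single j a : V p N) = 1 := by
  classical
  have hwt : UOD.wt J (Pi.single j a : V p N) ≤ 1 := by
    unfold UOD.wt
    have : univ.filter (fun i => i ∉ J ∧ (Pi.single j a : V p N) i ≠ 0) ⊆ {j} := by
      intro i hi
      simp only [mem_filter, mem_univ, true_and] at hi
      rw [mem_singleton]
      by_contra hij
      exact hi.2 (by simp [Pi.single_apply, hij])
    exact (card_le_card this).trans (card_singleton j).le
  refine le_antisymm ((UOD.dst_le_wt _).trans hwt) ?_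
  by_contra hcon
  have h0 : UOD.dst J S (Pi.single j a : V p N) = 0 := by omega
  have h1 := UOD.near_wt (J := J) (S := S) (Pi.single j a : V p N)
  rw [h0] at h1
  set l := UOD.near J S (Pi.single j a : V p N) with hl
  have h2 : UOD.wt J l ≤ M := by
    have e1 : l = Pi.single j a + (-((Pi.single j a : V p N) - l)) := by abel
    rw [e1]
    have e2 := UOD.wt_add J (Pi.single j a : V p N) (-((Pi.single j a : V p N) - l))
    rw [UOD.wt_neg, h1] at e2
    omega
  have hl0 : l = 0 := hsp _ (UOD.near_mem _) h2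
  rw [hl0, sub_zero] at h1
  have h4 : j ∈ univ.filter (fun i => i ∉ J ∧ (Pi.single j a : V p N) i ≠ 0) := by
    simp [hj, ha]
  have h5 : 0 < UOD.wt J (Pi.single j a : V p N) := card_pos.2 ⟨j, h4⟩
  omega

theorem card_S_le {p : ℕ} [Fact p.Prime] {N : ℕ} {J : Finset (Fin N)} {S : Finset (V p N)}
    {μ : V p N → ℝ} {M : ℕ} {η : ℝ} (hμ : ∀ v, 0 ≤ μ v) (hη : 0 < η)
    (hmax : ∀ q, UOD.Psi μ M η q ≤ UOD.Psi μ M η (J, S)) :
    η * (((M : ℝ) + 1) * S.card) ≤ ∑ v, μ v := by
  have h1 := hmax (∅, ∅)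
  simp only [UOD.Psi, card_empty, Nat.cast_zero, mul_zero, add_zero, sub_zero] at h1
  have h2 := UOD.Phi_nonneg hμ (∅ : Finset (Fin N)) (∅ : Finset (V p N))
  have h3 := UOD.Phi_le hμ J S
  have h4 : 0 ≤ η * (J.card : ℝ) := by positivity
  have h5 : η * ((J.card : ℝ) + (M + 1) * S.card)
      = η * J.card + η * (((M : ℝ) + 1) * S.card) := by ring
  linarith

theorem t_PKG : S_RIESZ → S_PKG := by
  classical
  intro hR p _ C τ hC hτ
  have hC0 : 0 < C := by linarith
  obtain ⟨k, hk⟩ := pow_unbounded_of_one_lt (8 * C ^ 2 / τ) (one_lt_two)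
  set s : ℝ := τ / (8 * C) with hs
  have hs0 : 0 < s := by positivity
  obtain ⟨B, hB⟩ := exists_nat_ge (2 * C / s)
  set e : ℝ := min (τ / 4) (1 / 2) with he
  have he0 : 0 < e := lt_min (by positivity) (by norm_num)
  have hp1 : (1 : ℝ) ≤ p := by exact_mod_cast (Nat.Prime.pos (Fact.out : p.Prime))
  have hp0 : (0 : ℝ) < p := by linarith
  obtain ⟨m0, hm0⟩ : ∃ m0 : ℕ, (p : ℝ) ^ B * (1 / 8) ^ m0 < e := by
    obtain ⟨m0, h⟩ := exists_pow_lt_of_lt_one (show 0 < e / (p : ℝ) ^ B by positivity)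
      (show (1 / 8 : ℝ) < 1 by norm_num)
    refine ⟨m0, ?_⟩
    rw [lt_div_iff₀ (by positivity)] at h
    linarith
  obtain ⟨M, hM⟩ : ∃ M : ℕ, M = 8 * k + 2 * m0 + k * 4 ^ k + 1 := ⟨_, rfl⟩
  set η : ℝ := s / ((M : ℝ) + 1) with hη
  have hM1 : (0 : ℝ) < (M : ℝ) + 1 := by positivity
  have hη0 : 0 < η := by positivity
  have hηM : η * ((M : ℝ) + 1) = s := by
    rw [hη]
    field_simp
  obtain ⟨N, hN⟩ := exists_nat_gt (2 * C / (η * τ))
  have hN0 : (0 : ℝ) < N := lt_of_le_of_lt (by positivity) hN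
  refine ⟨N, by exact_mod_cast hN0, fun m hm hmC => ?_⟩
  obtain ⟨⟨J, S⟩, hmax⟩ := UOD.exists_max (fun v : V p N => m v + m v) M η
  have hμ : ∀ v, 0 ≤ m v + m v := fun v => add_nonneg (hm v) (hm v)
  have hμC : ∑ v, (m v + m v) ≤ 2 * C := by
    rw [sum_add_distrib]
    linarith
  have hsp : ∀ l ∈ Submodule.span (ZMod p) (S : Set (V p N)), UOD.wt J l ≤ M → l = 0 :=
    fun l hl hw => UOD.span_small hμ hη0 hmax hl hw
  refine ⟨UOD.dst J S, ⟨UOD.dst_zero, UOD.dst_neg, UOD.dst_add, ?_, ?_, ?_⟩⟩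
  · have h := UOD.total_error (k := k) hη0 (show 8 * k ≤ M by omega) hm hm hmax hmC hmC
    have hBB : ∀ u v, Bd (UOD.dst J S) u v = UOD.BB J S u v := fun u v => rfl
    simp only [hBB]
    refine h.trans ?_
    have e1 : 2 * (C * s) = τ / 4 := by
      rw [hs]
      field_simp
      norm_num
    have e2 : η * ((k : ℝ) * 4 ^ k) ≤ s := by
      rw [← hηM]
      refine mul_le_mul_of_nonneg_left ?_ hη0.le
      have : k * 4 ^ k ≤ M + 1 := by omega
      exact_mod_cast this
    have e3 : 2 * (C * (C * (1 / 2) ^ k)) ≤ τ / 4 := by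
      have e4 : (1 / 2 : ℝ) ^ k = 1 / 2 ^ k := by rw [one_div_pow]
      have e5 : 2 * (C * (C * (1 / 2 ^ k))) = (2 * C ^ 2) / 2 ^ k := by ring
      rw [e4, e5, div_le_iff₀ (by positivity)]
      rw [div_lt_iff₀ hτ] at hk
      linarith
    have e6 : C * (2 * k * 4 ^ k * η) = 2 * (C * (η * ((k : ℝ) * 4 ^ k))) := by ring
    have e7 := mul_le_mul_of_nonneg_left e2 hC0.le
    have e8 : 2 * (C * (η * ((M : ℝ) + 1) + C * (1 / 2) ^ k)) =
        2 * (C * s) + 2 * (C * (C * (1 / 2) ^ k)) := by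
      rw [hηM]
      ring
    rw [e6, e8]
    linarith
  · have h1 : univ.filter (fun j : Fin N => ∃ a : ZMod p, a ≠ 0 ∧
        UOD.dst J S (Pi.single j a : V p N) ≠ 1) ⊆ J := by
      intro j hj
      simp only [mem_filter, mem_univ, true_and] at hj
      obtain ⟨a, ha, hd⟩ := hj
      by_contra hcon
      exact hd (unit_dst (by omega) hsp hcon ha)
    have h2 := UOD.card_J_le hμ hη0 hmax
    have h3 : (J.card : ℝ) ≤ τ * N := by
      rw [div_lt_iff₀ (by positivity)] at hN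
      have h4 : η * (J.card : ℝ) ≤ η * (τ * N) := by nlinarith
      exact le_of_mul_le_mul_left h4 hη0
    refine le_trans ?_ h3
    exact_mod_cast card_le_card h1
  · have h1 := card_S_le hμ hη0 hmax
    have h2 : S.card ≤ B := by
      have h3 : s * (S.card : ℝ) ≤ 2 * C := by
        rw [← hηM, mul_assoc]
        exact h1.trans hμC
      have h4 : (S.card : ℝ) ≤ 2 * C / s := by
        rw [le_div_iff₀ hs0]
        linarith
      exact_mod_cast h4.trans hB
    have h5 : (p : ℝ) ^ S.card * (1 / 8) ^ ((M + 1) / 2) ≤ e := by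
      refine le_trans ?_ hm0.le
      refine mul_le_mul (pow_le_pow_right₀ hp1 h2) ?_ (by positivity) (by positivity)
      exact pow_le_pow_of_le_one (by norm_num) (by norm_num) (by omega)
    intro q hq
    obtain ⟨ρ, r1, r2, r3⟩ := riesz_field hR p N J S M hsp e h5 (min_le_right _ _) q hq
    refine ⟨ρ, r1, r2, fun v => (r3 v).trans ?_⟩
    have := min_le_left (τ / 4) (1 / 2 : ℝ)
    linarith

end

end Pool.Agent.D0H45.OP
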