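import Pool.Agent.D0H73.OP.Stm

/-!
# Project OP (helper73), the field `riesz` of the module PKG.
-/

set_option autoImplicit false

open Finset
open scoped BigOperators

namespace Pool.Agent.D0H45.OP

open Pool.Agent.D0H73.OP Pool.Agent.V1192
open Pool.Agent.V1192.UOD (V)

noncomputable section

theorem chr_zero {p : ℕ} [Fact p.Prime] {N : ℕ} (u : V p N) : chr u 0 = 1 := by
  unfold chr
  simp

theorem card_span_le {p : ℕ} [Fact p.Prime] {N : ℕ} (S : Finset (V p N)) (T : Finset (V p N))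
    (hT : ∀ l, l ∈ T ↔ l ∈ Submodule.span (ZMod p) (S : Set (V p N))) : T.card ≤ p ^ S.card := by
  classical
  have h1 : Nat.card (Submodule.span (ZMod p) (S : Set (V p N))) = T.card := by
    rw [← Nat.card_eq_finsetCard T]
    exact Nat.card_congr (Equiv.subtypeEquivRight fun l => (hT l).symm)
  rw [← h1]
  have h2 : Nat.card (Submodule.span (ZMod p) (S : Set (V p N))) =
      Nat.card (ZMod p) ^ Module.finrank (ZMod p) (Submodule.span (ZMod p) (S : Set (V p N))) :=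
    Module.natCard_eq_pow_finrank
  rw [h2, Nat.card_zmod]
  exact Nat.pow_le_pow_right (Nat.Prime.pos Fact.out) (finrank_span_finset_le_card S)

theorem far {p : ℕ} [Fact p.Prime] {N : ℕ} {J : Finset (Fin N)} {S : Finset (V p N)} {M : ℕ}
    (hsp : ∀ l ∈ Submodule.span (ZMod p) (S : Set (V p N)), UOD.wt J l ≤ M → l = 0)
    (v l : V p N) (hl : l ∈ Submodule.span (ZMod p) (S : Set (V p N)))
    (hne : l ≠ UOD.near J S v) : (M + 1) / 2 ≤ UOD.wt J (v - l) := by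
  have h1 : ¬ UOD.wt J (UOD.near J S v - l) ≤ M := fun h =>
    hne (sub_eq_zero.1 (hsp _ (Submodule.sub_mem _ (UOD.near_mem v) hl) h)).symm
  have h2 : UOD.near J S v - l = (v - l) + (-(v - UOD.near J S v)) := by abel
  have h3 := UOD.wt_add J (v - l) (-(v - UOD.near J S v))
  rw [UOD.wt_neg, UOD.near_wt] at h3
  have h4 := UOD.dst_le (J := J) (v := v) hl
  rw [h2] at h1
  omega

theorem riesz_field (hR : S_RIESZ) (p : ℕ) [Fact p.Prime] (N : ℕ) (J : Finset (Fin N))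
    (S : Finset (V p N)) (M : ℕ)
    (hsp : ∀ l ∈ Submodule.span (ZMod p) (S : Set (V p N)), UOD.wt J l ≤ M → l = 0) (e : ℝ)
    (he : (p : ℝ) ^ S.card * (1 / 8) ^ ((M + 1) / 2) ≤ e) (he1 : e ≤ 1 / 2) :
    ∀ q : ℝ, |q| ≤ 1 / (8 * p) → ∃ ρ : V p N → ℝ, (∀ u, 0 ≤ ρ u) ∧ ∑ u, ρ u = 1 ∧
      ∀ v, ‖∑ u, (ρ u : ℂ) * chr u v - (q : ℂ) ^ UOD.dst J S v‖ ≤ 4 * e := by
  classical
  intro q hq
  obtain ⟨ρ, hρ0, hρ⟩ := hR p N J S q hq
  obtain ⟨T, hTm, hTs⟩ : ∃ T : Finset (V p N),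
      (∀ l, l ∈ T ↔ l ∈ Submodule.span (ZMod p) (S : Set (V p N))) ∧
      ∀ v, ∑ u, (ρ u : ℂ) * chr u v = ∑ l ∈ T, (q : ℂ) ^ UOD.wt J (v - l) := by
    refine ⟨_, ?_, hρ⟩
    intro l
    simp
  have hp1 : (1 : ℝ) ≤ p := by exact_mod_cast (Nat.Prime.pos (Fact.out : p.Prime))
  have hq8 : |q| ≤ 1 / 8 := hq.trans (one_div_le_one_div_of_le (by norm_num) (by linarith))
  have hqn : ‖(q : ℂ)‖ ≤ 1 / 8 := by
    rw [Complex.norm_real]
    exact hq8
  have hT : ∀ v, ‖∑ u, (ρ u : ℂ) * chr u v - (q : ℂ) ^ UOD.dst J S v‖ ≤ e := by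
    intro v
    have hnear : UOD.near J S v ∈ T := (hTm _).2 (UOD.near_mem v)
    rw [hTs v, ← Finset.add_sum_erase T _ hnear, UOD.near_wt, add_sub_cancel_left]
    refine (norm_sum_le _ _).trans ?_
    calc ∑ l ∈ T.erase (UOD.near J S v), ‖(q : ℂ) ^ UOD.wt J (v - l)‖
        ≤ ∑ l ∈ T.erase (UOD.near J S v), (1 / 8 : ℝ) ^ ((M + 1) / 2) := by
          refine sum_le_sum fun l hl => ?_
          rw [norm_pow]
          have h1 := far hsp v l ((hTm l).1 (mem_of_mem_erase hl)) (ne_of_mem_erase hl)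
          calc ‖(q : ℂ)‖ ^ UOD.wt J (v - l) ≤ (1 / 8 : ℝ) ^ UOD.wt J (v - l) :=
                pow_le_pow_left₀ (norm_nonneg _) hqn _
            _ ≤ _ := pow_le_pow_of_le_one (by norm_num) (by norm_num) h1
      _ = ((T.erase (UOD.near J S v)).card : ℝ) * (1 / 8 : ℝ) ^ ((M + 1) / 2) := by
          rw [sum_const, nsmul_eq_mul]
      _ ≤ (p : ℝ) ^ S.card * (1 / 8 : ℝ) ^ ((M + 1) / 2) := by
          refine mul_le_mul_of_nonneg_right ?_ (by positivity)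
          exact_mod_cast card_erase_le.trans (card_span_le S T hTm)
      _ ≤ e := he
  set A : ℝ := ∑ u, ρ u with hA
  have hA1 : ‖((A : ℝ) : ℂ) - 1‖ ≤ e := by
    have h := hT 0
    simp only [chr_zero, mul_one, UOD.dst_zero, pow_zero] at h
    rw [hA]
    push_cast
    exact h
  have hA2 : 1 / 2 ≤ A := by
    have h1 : ((A : ℝ) : ℂ) - 1 = ((A - 1 : ℝ) : ℂ) := by push_cast; ring
    rw [h1, Complex.norm_real, Real.norm_eq_abs] at hA1
    have h2 := neg_abs_le (A - 1)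
    linarith
  have hA0 : 0 < A := by linarith
  have hAc : (A : ℂ) ≠ 0 := by exact_mod_cast hA0.ne'
  refine ⟨fun u => ρ u / A, fun u => div_nonneg (hρ0 u) hA0.le, ?_, fun v => ?_⟩
  · rw [← sum_div, ← hA, div_self hA0.ne']
  · have h1 : ∑ u, ((ρ u / A : ℝ) : ℂ) * chr u v = (∑ u, (ρ u : ℂ) * chr u v) / A := by
      rw [sum_div]
      refine sum_congr rfl fun u _ => ?_
      push_cast
      ring
    have h2 : (∑ u, (ρ u : ℂ) * chr u v) / A - (q : ℂ) ^ UOD.dst J S v =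
        ((∑ u, (ρ u : ℂ) * chr u v - (q : ℂ) ^ UOD.dst J S v) -
          ((A : ℂ) - 1) * (q : ℂ) ^ UOD.dst J S v) / A := by
      field_simp
      ring
    have h3 : ‖(q : ℂ) ^ UOD.dst J S v‖ ≤ 1 := by
      rw [norm_pow]
      exact pow_le_one₀ (norm_nonneg _) (hqn.trans (by norm_num))
    rw [h1, h2, norm_div, Complex.norm_real, Real.norm_eq_abs, abs_of_pos hA0,
      div_le_iff₀ hA0]
    have h4 : ‖((A : ℂ) - 1) * (q : ℂ) ^ UOD.dst J S v‖ ≤ e := by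
      rw [norm_mul]
      calc ‖(A : ℂ) - 1‖ * ‖(q : ℂ) ^ UOD.dst J S v‖ ≤ ‖(A : ℂ) - 1‖ * 1 :=
            mul_le_mul_of_nonneg_left h3 (norm_nonneg _)
        _ ≤ e := by rw [mul_one]; exact hA1
    have h5 := norm_sub_le (∑ u, (ρ u : ℂ) * chr u v - (q : ℂ) ^ UOD.dst J S v)
      (((A : ℂ) - 1) * (q : ℂ) ^ UOD.dst J S v)
    have h6 := hT v
    have he0 : 0 ≤ e := (norm_nonneg _).trans hA1
    nlinarith

end

end Pool.Agent.D0H45.OP
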